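import Pool.Agent.Helper12.VW.Final

/-!
# MP_34d092_nt: integer polynomials whose Galois group is not `S_n`

For every degree `n ≠ 2` the number of polynomials of degree at most `n` and height at most `H`
whose Galois group is not `S_n` is at most a constant times `|P_n(H)| / H`; for `n = 2` it is not
(there are about `H² log H` reducible quadratic polynomials).

Outline of the proof for `n ≥ 4` (files `Pool/Agent/*/VW/`). Reducible polynomials are counted with
the Mahler measure. Let `f` be irreducible with group different from `S_n`. Choose a subfield `L` of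
its root field `K`, `L` without proper subfields, `[L : ℚ] = k > 1`, `n = k m` (with `m = 1` if `K`
has no proper subfield). For every prime `p > n` the reduction of `f` modulo `p` has index at least
`m v_p(D_L)` (it has at most `n - m v_p(D_L)` distinct zeros on the projective line); if `m = 1`,
then no prime divides `D_L` exactly once, since otherwise the group contains a transposition.
* The set of forms of index at least `i` modulo `p` is a cone of density `O(p^{-i})` whose
  hyperplane sections are smaller by a factor `p`; hence its Fourier transform is small, and the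
  expected upper bound holds for the number of `f` in the box with prescribed indices at the primes
  dividing `q`, for all `q ≤ H^{1+1/(n+2)}`.
* If the radical `q` of the discriminant is larger, either it has a divisor in the range
  just above `H`, or it has a divisor larger than `H^{1+δ}` composed of primes larger than `H^δ`;
  such primes divide a fixed nonzero polynomial in `a_1, …, a_n`, and fix `a_0` modulo the divisor.
* If the discriminant of `L` is small, `L` is the root field of one of few polynomials with small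
  coefficients (Minkowski), and the number of `f` for a given `L` is bounded by counting the elements
  of bounded height of `L` in the inverse of an ideal with the pigeonhole principle.
The case `n = 3` is a divisor-bound argument.
-/

namespace Pool.Agent.Results.MP_34d092_nt.NonMonicVanDerWaerden

open Polynomial

/-- `P_n(H)`: integer polynomials of degree at most `n` (leading coefficient arbitrary, possibly
zero) all of whose coefficients have absolute value at most `H`. -/
def PolySet (n : ℕ) (H : ℝ) : Set ℤ[X] := {f | f.natDegree ≤ n ∧ ∀ i, |(f.coeff i : ℝ)| ≤ H}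

/-- The polynomials counted by `E_n(H)`: those `f` in `P_n(H)` with `a_n = 0`, or whose Galois
group over `ℚ` is not isomorphic to the symmetric group `S_n`. -/
def Exceptional (n : ℕ) (H : ℝ) : Set ℤ[X] :=
  {f | f ∈ PolySet n H ∧ ¬ (f.coeff n ≠ 0 ∧
    Nonempty ((f.map (Int.castRingHom ℚ)).Gal ≃* Equiv.Perm (Fin n)))}

open Pool.Agent.Helper12.VW

theorem mem_polySet_iff {n : ℕ} {H : ℝ} (hH : 1 ≤ H) (f : ℤ[X]) :
    f ∈ PolySet n H ↔ ∃ a ∈ Box n ⌊H⌋₊, toPoly a = f := by
  constructor
  · rintro ⟨h1, h2⟩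
    refine ⟨fun i => f.coeff i, ?_, toPoly_of_natDegree_le f h1⟩
    rw [mem_Box]
    intro i
    have h3 := h2 i
    have h4 : ((f.coeff i).natAbs : ℝ) ≤ H := by
      rw [Nat.cast_natAbs]; push_cast; exact h3
    have h5 : (f.coeff i).natAbs ≤ ⌊H⌋₊ := Nat.le_floor h4
    rw [Int.abs_eq_natAbs]
    exact_mod_cast h5
  · rintro ⟨a, ha, rfl⟩
    rw [mem_Box] at ha
    refine ⟨toPoly_natDegree_le a, fun i => ?_⟩
    by_cases hi : i < n + 1
    · have h1 : (toPoly a).coeff i = a ⟨i, hi⟩ := toPoly_coeff a ⟨i, hi⟩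
      rw [h1]
      have h2 := ha ⟨i, hi⟩
      have h3 : (|a ⟨i, hi⟩| : ℝ) ≤ (⌊H⌋₊ : ℝ) := by exact_mod_cast h2
      exact h3.trans (Nat.floor_le (by linarith))
    · rw [toPoly_coeff_of_lt _ _ (by omega)]
      simp; linarith

theorem polySet_eq {n : ℕ} {H : ℝ} (hH : 1 ≤ H) :
    PolySet n H = toPoly '' (Box n ⌊H⌋₊ : Set (Fin (n + 1) → ℤ)) := by
  ext f
  rw [mem_polySet_iff hH]
  simp

theorem polySet_finite {n : ℕ} {H : ℝ} (hH : 1 ≤ H) : (PolySet n H).Finite := by
  rw [polySet_eq hH]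
  exact (Finset.finite_toSet _).image _

theorem polySet_ncard {n : ℕ} {H : ℝ} (hH : 1 ≤ H) :
    (PolySet n H).ncard = (2 * ⌊H⌋₊ + 1) ^ (n + 1) := by
  rw [polySet_eq hH, Set.ncard_image_of_injective _ toPoly_injective, Set.ncard_coe_finset]
  unfold Box
  rw [Fintype.card_piFinset]
  simp only [Int.card_Icc, Finset.prod_const, Finset.card_univ, Fintype.card_fin]
  congr 1
  omega

theorem exceptional_ncard {n : ℕ} {H : ℝ} (hH : 1 ≤ H) :
    (Exceptional n H).ncard = {a ∈ (Box n ⌊H⌋₊ : Set (Fin (n + 1) → ℤ)) |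
      ¬ (a (Fin.last n) ≠ 0 ∧ Nonempty ((ratPoly a).Gal ≃* Equiv.Perm (Fin n)))}.ncard := by
  have h : Exceptional n H = toPoly '' {a ∈ (Box n ⌊H⌋₊ : Set (Fin (n + 1) → ℤ)) |
      ¬ (a (Fin.last n) ≠ 0 ∧ Nonempty ((ratPoly a).Gal ≃* Equiv.Perm (Fin n)))} := by
    ext f
    constructor
    · rintro ⟨h1, h2⟩
      obtain ⟨a, ha, rfl⟩ := (mem_polySet_iff hH f).mp h1
      refine ⟨a, ⟨ha, ?_⟩, rfl⟩
      have h3 : (toPoly a).coeff n = a (Fin.last n) := toPoly_coeff a (Fin.last n)
      rw [h3] at h2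
      exact h2
    · rintro ⟨a, ⟨ha, h2⟩, rfl⟩
      refine ⟨(mem_polySet_iff hH _).mpr ⟨a, ha, rfl⟩, ?_⟩
      have h3 : (toPoly a).coeff n = a (Fin.last n) := toPoly_coeff a (Fin.last n)
      rw [h3]
      exact h2
  rw [h, Set.ncard_image_of_injective _ toPoly_injective]

/-- **Answer to Q1**. For every `n ≥ 1`: `P_n(H)` is finite with `(2⌊H⌋+1)^(n+1)` elements, and
there is a constant `C_n` with `E_n(H) ≤ C_n |P_n(H)| / H` for all real `H ≥ 1` if and only if
`n ≠ 2`. -/
theorem result (n : ℕ) (hn : 1 ≤ n) :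
    (∀ H : ℝ, 1 ≤ H → (PolySet n H).Finite ∧ (PolySet n H).ncard = (2 * ⌊H⌋₊ + 1) ^ (n + 1)) ∧
    ((∃ C : ℝ, ∀ H : ℝ, 1 ≤ H →
      ((Exceptional n H).ncard : ℝ) ≤ C * ((PolySet n H).ncard : ℝ) / H) ↔ n ≠ 2) := by
  classical
  refine ⟨fun H hH => ⟨polySet_finite hH, polySet_ncard hH⟩, ?_, ?_⟩
  · rintro ⟨C, hC⟩ rfl
    obtain ⟨c, hc, hlow⟩ := quadratic_lower
    have hex : ∃ H : ℕ, 1 ≤ H ∧ 27 * |C| / c + 1 ≤ Real.log H := by
      have h1 := (Real.tendsto_log_atTop.comp tendsto_natCast_atTop_atTop).eventually_ge_atTop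
        (27 * |C| / c + 1)
      obtain ⟨H, hH⟩ := (h1.and (Filter.eventually_ge_atTop 1)).exists
      exact ⟨H, hH.2, hH.1⟩
    obtain ⟨H, hH1, hlog⟩ := hex
    have hH1' : (1 : ℝ) ≤ H := by exact_mod_cast hH1
    have h1 := hC H hH1'
    rw [exceptional_ncard hH1', polySet_ncard hH1', Nat.floor_natCast] at h1
    have h2 := hlow H hH1
    have h3 : c * (H : ℝ) ^ 2 * Real.log H ≤ C * (((2 * H + 1) ^ (2 + 1) : ℕ) : ℝ) / H :=
      h2.trans h1
    have h4 : C * (((2 * H + 1) ^ (2 + 1) : ℕ) : ℝ) / H ≤ 27 * |C| * (H : ℝ) ^ 2 := by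
      rw [div_le_iff₀ (by positivity)]
      have h5 : (((2 * H + 1) ^ (2 + 1) : ℕ) : ℝ) ≤ 27 * (H : ℝ) ^ 3 := by
        push_cast
        have : (2 * (H : ℝ) + 1) ≤ 3 * H := by linarith
        calc (2 * (H : ℝ) + 1) ^ 3 ≤ (3 * H) ^ 3 := pow_le_pow_left₀ (by positivity) this 3
          _ = 27 * (H : ℝ) ^ 3 := by ring
      calc C * (((2 * H + 1) ^ (2 + 1) : ℕ) : ℝ) ≤ |C| * (((2 * H + 1) ^ (2 + 1) : ℕ) : ℝ) :=
            mul_le_mul_of_nonneg_right (le_abs_self C) (by positivity)
        _ ≤ |C| * (27 * (H : ℝ) ^ 3) := mul_le_mul_of_nonneg_left h5 (abs_nonneg C)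
        _ = _ := by ring
    have h6 := h3.trans h4
    have h7 : c * Real.log H ≤ 27 * |C| := by
      have hpos : (0 : ℝ) < (H : ℝ) ^ 2 := by positivity
      have : (c * Real.log H) * (H : ℝ) ^ 2 ≤ (27 * |C|) * (H : ℝ) ^ 2 := by linarith
      exact le_of_mul_le_mul_right this hpos
    have h8 : Real.log H ≤ 27 * |C| / c := by
      rw [le_div_iff₀ hc]; linarith
    linarith
  · intro hn2
    rcases Nat.lt_or_ge n 3 with hlt | hge
    · have hn1 : n = 1 := by omega
      subst hn1
      refine ⟨1, fun H hH => ?_⟩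
      have hfl : 1 ≤ ⌊H⌋₊ := Nat.le_floor (by exact_mod_cast hH)
      rw [exceptional_ncard hH, polySet_ncard hH]
      have h1 : {a ∈ (Box 1 ⌊H⌋₊ : Set (Fin (1 + 1) → ℤ)) |
          ¬ (a (Fin.last 1) ≠ 0 ∧ Nonempty ((ratPoly a).Gal ≃* Equiv.Perm (Fin 1)))} ⊆
          {a ∈ (Box 1 ⌊H⌋₊ : Set (Fin (1 + 1) → ℤ)) | a (Fin.last 1) = 0} := by
        rintro a ⟨haB, hbad⟩
        refine ⟨haB, ?_⟩
        by_contra h0
        apply hbad
        refine ⟨h0, ?_⟩
        have hdeg : (ratPoly a).natDegree ≤ 1 := by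
          unfold ratPoly
          exact natDegree_map_le.trans (toPoly_natDegree_le a)
        have hsp : (ratPoly a).Splits := Splits.of_natDegree_le_one hdeg
        have huniq := Gal.uniqueGalOfSplits (ratPoly a) hsp
        exact ⟨MulEquiv.ofUnique⟩
      have h2 := Set.ncard_le_ncard h1 (box_filter_finite _)
      have h3 := last_zero_count 1 ⌊H⌋₊ hfl
      have h4 : (({a ∈ (Box 1 ⌊H⌋₊ : Set (Fin (1 + 1) → ℤ)) |
          ¬ (a (Fin.last 1) ≠ 0 ∧ Nonempty ((ratPoly a).Gal ≃* Equiv.Perm (Fin 1)))}.ncard : ℕ) : ℝ)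
          ≤ 3 ^ 1 * (⌊H⌋₊ : ℝ) ^ 1 := le_trans (by exact_mod_cast h2) h3
      refine h4.trans ?_
      rw [le_div_iff₀ (by linarith)]
      have h0 : (0 : ℝ) ≤ ⌊H⌋₊ := by positivity
      have h5 : H ≤ (⌊H⌋₊ : ℝ) + 1 := (Nat.lt_floor_add_one H).le
      push_cast
      nlinarith
    · obtain ⟨C, hC, hb⟩ := bad_bound n hge
      refine ⟨C, fun H hH => ?_⟩
      have hfl : 1 ≤ ⌊H⌋₊ := Nat.le_floor (by exact_mod_cast hH)
      rw [exceptional_ncard hH, polySet_ncard hH]
      refine (hb _ hfl).trans ?_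
      rw [le_div_iff₀ (by linarith), mul_assoc]
      apply mul_le_mul_of_nonneg_left _ hC.le
      have h1 : H ≤ 2 * (⌊H⌋₊ : ℝ) + 1 := by
        have := (Nat.lt_floor_add_one H).le
        have h0 : (0 : ℝ) ≤ ⌊H⌋₊ := by positivity
        linarith
      push_cast
      rw [pow_succ]
      apply mul_le_mul _ h1 (by linarith) (by positivity)
      apply pow_le_pow_left₀ (by positivity)
      have h0 : (0 : ℝ) ≤ ⌊H⌋₊ := by positivity
      linarith

end Pool.Agent.Results.MP_34d092_nt.NonMonicVanDerWaerden
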